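import Mathlib

/-!
The abstract lemma P3' (minimal cell argument): a symmetric 0/1 matrix with loops in which every
closed pair has a midpoint and which has an induced P4 has a good induced P4.
-/

namespace Pool.Agent.H75.P3

variable {X : Type*} [DecidableEq X]

/-- every closed pair of `S` has a midpoint in `S`. -/
def PairsOn (M : X → X → Bool) (S : Finset X) : Prop :=
  ∀ u ∈ S, ∀ v ∈ S, M u u = M v v → M u v ≠ M u u →
    ∃ g ∈ S, M g g ≠ M u u ∧ M g u ≠ M u u ∧ M g v ≠ M u u ∧
      ∀ x ∈ S, M u x = M v x → M g x = M u x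

/-- induced path on four vertices. -/
def IsP4 (M : X → X → Bool) (a b c d : X) : Prop :=
  M a b = true ∧ M b c = true ∧ M c d = true ∧ M a c = false ∧ M b d = false ∧ M a d = false

omit [DecidableEq X] in
theorem PairsOn.filter {M : X → X → Bool} {S : Finset X} (hP : PairsOn M S)
    (p : X → Prop) [DecidablePred p]
    (hp : ∀ u v g, p u → p v → (∀ x ∈ S, M u x = M v x → M g x = M u x) → p g) :
    PairsOn M (S.filter p) := by
  intro u hu v hv h1 h2
  rw [Finset.mem_filter] at hu hv
  obtain ⟨g, hg, a1, a2, a3, a4⟩ := hP u hu.1 v hv.1 h1 h2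
  exact ⟨g, Finset.mem_filter.2 ⟨hg, hp u v g hu.2 hv.2 a4⟩, a1, a2, a3,
    fun x hx => a4 x (Finset.mem_filter.1 hx).1⟩

omit [DecidableEq X] in
/-- LEMMA R: a nonempty P4-free set with midpoints has a root. -/
theorem root (M : X → X → Bool) (hM : ∀ x y, M x y = M y x) : ∀ n : ℕ, ∀ S : Finset X,
    S.card = n → S.Nonempty → PairsOn M S →
    (∀ a ∈ S, ∀ b ∈ S, ∀ c ∈ S, ∀ d ∈ S, ¬ IsP4 M a b c d) →
    ∃ r ∈ S, ∀ x ∈ S, M r x = M r r := by
  intro n
  induction n using Nat.strong_induction_on with
  | _ n ih =>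
    intro S hn hne hP h4
    rcases (S.filter (fun p => M p p = true)).eq_empty_or_nonempty with hemp | hex
    · obtain ⟨r, hr⟩ := hne
      have hc : ∀ x ∈ S, M x x = false := by
        intro x hx
        by_contra h
        have : x ∈ S.filter (fun p => M p p = true) := by
          rw [Finset.mem_filter]; exact ⟨hx, by simpa using h⟩
        rw [hemp] at this; simp at this
      refine ⟨r, hr, fun x hx => ?_⟩
      by_contra h
      obtain ⟨g, hg, a1, -⟩ := hP r hr x hx (by rw [hc r hr, hc x hx]) h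
      rw [hc r hr, hc g hg] at a1
      exact a1 rfl
    · obtain ⟨p, hp, hmax⟩ := Finset.exists_max_image _
        (fun p => (S.filter (fun x => M p x = true)).card) hex
      rw [Finset.mem_filter] at hp
      obtain ⟨hpS, hpp⟩ := hp
      by_cases hfull : ∀ x ∈ S, M p x = true
      · exact ⟨p, hpS, fun x hx => by rw [hfull x hx, hpp]⟩
      push Not at hfull
      obtain ⟨z, hz, hpz⟩ := hfull
      have hpz' : M p z = false := by simpa using hpz
      -- the set Z
      have hZP : PairsOn M (S.filter (fun x => M x p = false)) :=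
        hP.filter _ (fun u v g hu hv h => by rw [h p hpS (by rw [hu, hv]), hu])
      have hZlt : (S.filter (fun x => M x p = false)).card < n := by
        rw [← hn]
        apply Finset.card_lt_card
        rw [Finset.ssubset_iff_of_subset (Finset.filter_subset _ _)]
        exact ⟨p, hpS, by rw [Finset.mem_filter, hpp]; simp⟩
      obtain ⟨q, hq, hqr⟩ := ih _ hZlt _ rfl ⟨z, by
          rw [Finset.mem_filter]; exact ⟨hz, by rw [hM z p]; exact hpz'⟩⟩ hZP
        (fun a ha b hb c hc d hd => h4 a (Finset.mem_filter.1 ha).1 b (Finset.mem_filter.1 hb).1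
          c (Finset.mem_filter.1 hc).1 d (Finset.mem_filter.1 hd).1)
      rw [Finset.mem_filter] at hq
      obtain ⟨hqS, hqp⟩ := hq
      have hpq : M p q = false := by rw [hM]; exact hqp
      have hqq : M q q = false := by
        by_contra h
        have h' : M q q = true := by simpa using h
        obtain ⟨g, hg, a1, a2, a3, -⟩ := hP p hpS q hqS (by rw [hpp, h']) (by rw [hpp, hpq]; simp)
        rw [hpp] at a1 a2 a3
        have a2' : M g p = false := by simpa using a2
        have a3' : M g q = false := by simpa using a3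
        have := hqr g (by rw [Finset.mem_filter]; exact ⟨hg, a2'⟩)
        rw [hM q g, a3', h'] at this
        simp at this
      rcases (S.filter (fun x => M x q = true)).eq_empty_or_nonempty with hNe | hNne
      · refine ⟨q, hqS, fun x hx => ?_⟩
        rw [hqq]
        by_contra h
        have : x ∈ S.filter (fun x => M x q = true) := by
          rw [Finset.mem_filter]; exact ⟨hx, by rw [hM x q]; simpa using h⟩
        rw [hNe] at this; simp at this
      have hNP : PairsOn M (S.filter (fun x => M x q = true)) :=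
        hP.filter _ (fun u v g hu hv h => by rw [h q hqS (by rw [hu, hv]), hu])
      have hNlt : (S.filter (fun x => M x q = true)).card < n := by
        rw [← hn]
        apply Finset.card_lt_card
        rw [Finset.ssubset_iff_of_subset (Finset.filter_subset _ _)]
        exact ⟨q, hqS, by rw [Finset.mem_filter, hqq]; simp⟩
      obtain ⟨p', hp', hp'r⟩ := ih _ hNlt _ rfl hNne hNP
        (fun a ha b hb c hc d hd => h4 a (Finset.mem_filter.1 ha).1 b (Finset.mem_filter.1 hb).1
          c (Finset.mem_filter.1 hc).1 d (Finset.mem_filter.1 hd).1)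
      rw [Finset.mem_filter] at hp'
      obtain ⟨hp'S, hp'q⟩ := hp'
      have hp'p' : M p' p' = true := by
        by_contra h
        have h' : M p' p' = false := by simpa using h
        obtain ⟨g, hg, a1, a2, a3, -⟩ := hP q hqS p' hp'S (by rw [hqq, h'])
          (by rw [hqq, hM q p', hp'q]; simp)
        rw [hqq] at a1 a2 a3
        have a2' : M g q = true := by simpa using a2
        have a3' : M g p' = true := by simpa using a3
        have := hp'r g (by rw [Finset.mem_filter]; exact ⟨hg, a2'⟩)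
        rw [hM p' g, a3', h'] at this
        simp at this
      have hsub : ∀ x ∈ S, M x q = true → M p x = true := by
        intro x hx hxq
        by_contra h
        have h' : M x p = false := by rw [hM]; simpa using h
        have := hqr x (by rw [Finset.mem_filter]; exact ⟨hx, h'⟩)
        rw [hM q x, hxq, hqq] at this
        simp at this
      have hpp' : M p p' = true := hsub p' hp'S hp'q
      have hm := hmax p' (by rw [Finset.mem_filter]; exact ⟨hp'S, hp'p'⟩)
      obtain ⟨s, hsS, hps, hp's⟩ : ∃ s ∈ S, M p s = true ∧ M p' s = false := by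
        by_contra hcon
        push Not at hcon
        have hss : S.filter (fun x => M p x = true) ⊂ S.filter (fun x => M p' x = true) := by
          rw [Finset.ssubset_iff_of_subset]
          · exact ⟨q, by rw [Finset.mem_filter]; exact ⟨hqS, hp'q⟩,
              by rw [Finset.mem_filter, hpq]; simp⟩
          · intro x hx
            rw [Finset.mem_filter] at hx ⊢
            exact ⟨hx.1, by simpa using hcon x hx.1 hx.2⟩
        exact absurd hm (not_le.2 (Finset.card_lt_card hss))
      have hsq : M s q = false := by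
        by_contra h
        have h' : M s q = true := by simpa using h
        have := hp'r s (by rw [Finset.mem_filter]; exact ⟨hsS, h'⟩)
        rw [hp's, hp'p'] at this
        simp at this
      exact absurd ⟨by rw [hM]; exact hps, hpp', hp'q, by rw [hM]; exact hp's, hpq, hsq⟩
        (h4 s hsS p hpS p' hp'S q hqS)

/-- the minimality property. -/
def MinOn (M : X → X → Bool) (S : Finset X) : Prop :=
  ∀ y ∈ S, ∀ a ∈ S, ∀ b ∈ S, ∀ c ∈ S, ∀ d ∈ S, IsP4 M a b c d →
    M y a = M y b → M y a = M y c → M y a = M y d → ∀ x ∈ S, M y x = M y a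

/-- the bundle. -/
structure Bun (M : X → X → Bool) (S : Finset X) : Prop where
  symm : ∀ x y, M x y = M y x
  pairs : PairsOn M S
  min : MinOn M S

/-- the complement. -/
def co (M : X → X → Bool) : X → X → Bool := fun x y => !(M x y)

omit [DecidableEq X] in
theorem co_apply (M : X → X → Bool) (x y : X) : co M x y = !(M x y) := rfl

omit [DecidableEq X] in
theorem IsP4.rev {M : X → X → Bool} (hM : ∀ x y, M x y = M y x) {a b c d : X}
    (h : IsP4 M a b c d) : IsP4 M d c b a := by
  obtain ⟨h1, h2, h3, h4, h5, h6⟩ := h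
  exact ⟨by rw [hM]; exact h3, by rw [hM]; exact h2, by rw [hM]; exact h1, by rw [hM]; exact h5,
    by rw [hM]; exact h4, by rw [hM]; exact h6⟩

omit [DecidableEq X] in
theorem IsP4.toCo {M : X → X → Bool} (hM : ∀ x y, M x y = M y x) {a b c d : X}
    (h : IsP4 M a b c d) : IsP4 (co M) c a d b := by
  obtain ⟨h1, h2, h3, h4, h5, h6⟩ := h
  refine ⟨?_, ?_, ?_, ?_, ?_, ?_⟩ <;> rw [co_apply]
  · rw [hM, h4]; rfl
  · rw [h6]; rfl
  · rw [hM, h5]; rfl
  · rw [h3]; rfl
  · rw [h1]; rfl
  · rw [hM, h2]; rfl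

omit [DecidableEq X] in
theorem IsP4.ofCo {M : X → X → Bool} (hM : ∀ x y, M x y = M y x) {a b c d : X}
    (h : IsP4 (co M) a b c d) : IsP4 M b d a c := by
  obtain ⟨h1, h2, h3, h4, h5, h6⟩ := h
  rw [co_apply] at h1 h2 h3 h4 h5 h6
  have e1 : M a b = false := by simpa using h1
  have e2 : M b c = false := by simpa using h2
  have e3 : M c d = false := by simpa using h3
  have e4 : M a c = true := by simpa using h4
  have e5 : M b d = true := by simpa using h5
  have e6 : M a d = true := by simpa using h6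
  exact ⟨e5, by rw [hM]; exact e6, e4, by rw [hM]; exact e1, by rw [hM]; exact e3, e2⟩

omit [DecidableEq X] in
theorem Bun.toCo {M : X → X → Bool} {S : Finset X} (h : Bun M S) : Bun (co M) S where
  symm x y := by rw [co_apply, co_apply, h.symm]
  pairs := by
    intro u hu v hv h1 h2
    rw [co_apply, co_apply] at h1 h2
    obtain ⟨g, hg, a1, a2, a3, a4⟩ := h.pairs u hu v hv (by simpa using h1)
      (fun e => h2 (by rw [e]))
    refine ⟨g, hg, ?_, ?_, ?_, ?_⟩
    · rw [co_apply, co_apply]; simpa using a1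
    · rw [co_apply, co_apply]; simpa using a2
    · rw [co_apply, co_apply]; simpa using a3
    · intro x hx e
      rw [co_apply, co_apply] at e ⊢
      rw [a4 x hx (by simpa using e)]
  min := by
    intro y hy a ha b hb c hc d hd h4 e1 e2 e3 x hx
    rw [co_apply, co_apply] at e1 e2 e3 ⊢
    have f1 : M y a = M y b := by simpa using e1
    have f2 : M y a = M y c := by simpa using e2
    have f3 : M y a = M y d := by simpa using e3
    have := h.min y hy b hb d hd a ha c hc (IsP4.ofCo h.symm h4) (by rw [← f1, ← f3])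
      (by rw [← f1]) (by rw [← f1, ← f2]) x hx
    rw [this, f1]

omit [DecidableEq X] in
theorem co_co (M : X → X → Bool) : co (co M) = M := by
  funext x y; rw [co_apply, co_apply, Bool.not_not]

section
variable {M : X → X → Bool} {S : Finset X}

/-- root of a proper cell. -/
theorem Bun.cell_root (h : Bun M S) (p : X → Prop) [DecidablePred p]
    (hp : ∀ u v g, p u → p v → (∀ x ∈ S, M u x = M v x → M g x = M u x) → p g)
    (y : X) (hy : y ∈ S) (ε : Bool) (h0 : ∀ x, p x → M x y = ε) (hne : ∃ x ∈ S, M y x ≠ ε)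
    (hex : ∃ x ∈ S, p x) : ∃ r ∈ S, p r ∧ ∀ x ∈ S, p x → M r x = M r r := by
  obtain ⟨x0, hx0, hpx0⟩ := hex
  obtain ⟨r, hr, hrr⟩ := root M h.symm _ (S.filter p) rfl
    ⟨x0, by rw [Finset.mem_filter]; exact ⟨hx0, hpx0⟩⟩ (h.pairs.filter p hp)
    (by
      intro a ha b hb c hc d hd h4
      rw [Finset.mem_filter] at ha hb hc hd
      obtain ⟨x1, hx1, hx1e⟩ := hne
      have ea : M y a = ε := by rw [h.symm]; exact h0 a ha.2
      have eb : M y b = ε := by rw [h.symm]; exact h0 b hb.2
      have ec : M y c = ε := by rw [h.symm]; exact h0 c hc.2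
      have ed : M y d = ε := by rw [h.symm]; exact h0 d hd.2
      exact hx1e (by rw [h.min y hy a ha.1 b hb.1 c hc.1 d hd.1 h4 (by rw [ea, eb])
        (by rw [ea, ec]) (by rw [ea, ed]) x1 hx1, ea]))
  rw [Finset.mem_filter] at hr
  exact ⟨r, hr.1, hr.2, fun x hx hpx => hrr x (by rw [Finset.mem_filter]; exact ⟨hx, hpx⟩)⟩

theorem Bun.r1 (h : Bun M S) {y : X} (hy : y ∈ S) (h1 : ∃ x ∈ S, M y x = true)
    (h0 : ∃ x ∈ S, M y x = false) :
    ∃ p ∈ S, M y p = true ∧ M p p = true ∧ ∀ x ∈ S, M y x = true → M p x = true := by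
  by_cases hc : M y y = true
  · exact ⟨y, hy, hc, hc, fun x _ hx => hx⟩
  have hc' : M y y = false := by simpa using hc
  obtain ⟨x1, hx1, e1⟩ := h1
  obtain ⟨x0, hx0, e0⟩ := h0
  obtain ⟨r, hr, hry, hrr⟩ := h.cell_root (fun x => M x y = true)
    (fun u v g hu hv hg => by rw [hg y hy (by rw [hu, hv]), hu]) y hy true (fun x hx => hx)
    ⟨x0, hx0, by rw [e0]; simp⟩ ⟨x1, hx1, by rw [h.symm]; exact e1⟩
  have hyr : M y r = true := by rw [h.symm]; exact hry
  have hr1 : M r r = true := by
    by_contra hcon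
    have hcon' : M r r = false := by simpa using hcon
    obtain ⟨g, hg, a1, a2, a3, -⟩ := h.pairs y hy r hr (by rw [hc', hcon'])
      (by rw [hc', hyr]; simp)
    rw [hc'] at a1 a2 a3
    have a2' : M g y = true := by simpa using a2
    have a3' : M g r = true := by simpa using a3
    have := hrr g hg a2'
    rw [h.symm r g, a3', hcon'] at this
    simp at this
  exact ⟨r, hr, hyr, hr1, fun x hx hxy => by rw [hrr x hx (by rw [h.symm]; exact hxy), hr1]⟩

theorem Bun.r0 (h : Bun M S) {y : X} (hy : y ∈ S) (h1 : ∃ x ∈ S, M y x = true)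
    (h0 : ∃ x ∈ S, M y x = false) :
    ∃ p ∈ S, M y p = false ∧ M p p = false ∧ ∀ x ∈ S, M y x = false → M p x = false := by
  obtain ⟨x1, hx1, e1⟩ := h1
  obtain ⟨x0, hx0, e0⟩ := h0
  obtain ⟨p, hp, a1, a2, a3⟩ := h.toCo.r1 hy ⟨x0, hx0, by rw [co_apply, e0]; rfl⟩
    ⟨x1, hx1, by rw [co_apply, e1]; rfl⟩
  rw [co_apply] at a1 a2
  refine ⟨p, hp, by simpa using a1, by simpa using a2, fun x hx hxy => ?_⟩
  have := a3 x hx (by rw [co_apply, hxy]; rfl)
  rw [co_apply] at this
  simpa using this


/-- helper65's (i): a root of `D*` has colour 0. -/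
theorem Bun.iD (h : Bun M S) {a b c d : X} (ha : a ∈ S) (hb : b ∈ S) (hc : c ∈ S)
    (hd0 : d ∈ S) (h40 : IsP4 M a b c d) {r : X} (hr : r ∈ S) (hrc : M r c = true)
    (hra : M r a = false) (hrb : M r b = false)
    (hrr : ∀ x ∈ S, M x c = true → M x a = false → M x b = false → M r x = M r r) :
    M r r = false := by
  by_contra hcon
  have h1 : M r r = true := by simpa using hcon
  have hsee : ∀ x ∈ S, M x c = true → M x a = false → M x b = false → M r x = true :=
    fun x hx e1 e2 e3 => by rw [hrr x hx e1 e2 e3, h1]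
  obtain ⟨hab, hbc, -, hac, -, -⟩ := h40
  have har : M a r = false := by rw [h.symm]; exact hra
  have hbr : M b r = false := by rw [h.symm]; exact hrb
  have hcr : M c r = true := by rw [h.symm]; exact hrc
  have h4 : IsP4 M a b c r := ⟨hab, hbc, hcr, hac, hbr, har⟩
  -- a zero vertex exists
  obtain ⟨z, hz, hrz, hzz, hz0⟩ := h.r0 hr ⟨c, hc, hrc⟩ ⟨a, ha, hra⟩
  have hza : M z a = false := hz0 a ha hra
  have hzb : M z b = false := hz0 b hb hrb
  have hzr : M z r = false := by rw [h.symm]; exact hrz
  have hzc : M z c = false := by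
    by_contra hcon2
    have hcon2' : M z c = true := by simpa using hcon2
    have := hsee z hz hcon2' hza hzb
    rw [hrz] at this
    simp at this
  have hzero : ∀ x ∈ S, M z x = false := fun x hx => by
    rw [h.min z hz a ha b hb c hc r hr h4 (by rw [hza, hzb]) (by rw [hza, hzc])
      (by rw [hza, hzr]) x hx, hza]
  -- the set B*
  obtain ⟨ρ, hρ, ⟨hρa, hρc, hρr⟩, hρρ⟩ := h.cell_root
    (fun x => M x a = true ∧ M x c = true ∧ M x r = false)
    (fun u v g hu hv hg => ⟨by rw [hg a ha (by rw [hu.1, hv.1]), hu.1],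
      by rw [hg c hc (by rw [hu.2.1, hv.2.1]), hu.2.1],
      by rw [hg r hr (by rw [hu.2.2, hv.2.2]), hu.2.2]⟩) a ha true (fun x hx => hx.1)
    ⟨c, hc, by rw [hac]; simp⟩ ⟨b, hb, by rw [h.symm]; exact hab, hbc, hbr⟩
  have hρ1 : M ρ ρ = true := by
    by_contra hcon2
    have hρ0 : M ρ ρ = false := by simpa using hcon2
    obtain ⟨q, hq, hρq, hqq, hqall⟩ := h.r1 hρ ⟨a, ha, hρa⟩ ⟨r, hr, hρr⟩
    have hqa : M q a = true := hqall a ha hρa
    have hqc : M q c = true := hqall c hc hρc
    have hqρ : M q ρ = true := by rw [h.symm]; exact hρq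
    have hqr : M q r = true := by
      by_contra hcon3
      have hcon3' : M q r = false := by simpa using hcon3
      have := hρρ q hq ⟨hqa, hqc, hcon3'⟩
      rw [hρq, hρ0] at this
      simp at this
    have h4' : IsP4 M a ρ c r := ⟨by rw [h.symm]; exact hρa, hρc, hcr, hac, hρr, har⟩
    have := h.min q hq a ha ρ hρ c hc r hr h4' (by rw [hqa, hqρ]) (by rw [hqa, hqc])
      (by rw [hqa, hqr]) z hz
    rw [h.symm q z, hzero q hq, hqa] at this
    simp at this
  have hρb : M ρ b = true := by
    rw [hρρ b hb ⟨by rw [h.symm]; exact hab, hbc, hbr⟩, hρ1]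
  obtain ⟨g, hg, a1, a2, a3, a4⟩ := h.pairs ρ hρ r hr (by rw [hρ1, h1]) (by rw [hρ1, hρr]; simp)
  rw [hρ1] at a1 a2 a3
  have hgρ : M g ρ = false := by simpa using a2
  have hgr : M g r = false := by simpa using a3
  have hgc : M g c = true := by rw [a4 c hc (by rw [hρc, hrc]), hρc]
  have hga : M g a = false := by
    by_contra hcon2
    have hcon2' : M g a = true := by simpa using hcon2
    have := hρρ g hg ⟨hcon2', hgc, hgr⟩
    rw [h.symm ρ g, hgρ, hρ1] at this
    simp at this
  have hgb : M g b = true := by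
    by_contra hcon2
    have hcon2' : M g b = false := by simpa using hcon2
    have := hsee g hg hgc hga hcon2'
    rw [h.symm r g, hgr] at this
    simp at this
  have h4' : IsP4 M a ρ c g := ⟨by rw [h.symm]; exact hρa, hρc, by rw [h.symm]; exact hgc, hac,
    by rw [h.symm]; exact hgρ, by rw [h.symm]; exact hga⟩
  have hba : M b a = true := by rw [h.symm]; exact hab
  have := h.min b hb a ha ρ hρ c hc g hg h4' (by rw [hba, h.symm b ρ, hρb])
    (by rw [hba, hbc]) (by rw [hba, h.symm b g, hgb]) z hz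
  rw [h.symm b z, hzero b hb, hba] at this
  simp at this

/-- a type 0 root of `D*`. -/
theorem Bun.rootD (h : Bun M S) {a b c d : X} (ha : a ∈ S) (hb : b ∈ S) (hc : c ∈ S)
    (hd : d ∈ S) (h4 : IsP4 M a b c d) :
    ∃ r ∈ S, M r c = true ∧ M r a = false ∧ M r b = false ∧
      ∀ x ∈ S, M x c = true → M x a = false → M x b = false → M r x = false := by
  obtain ⟨hab, hbc, hcd, hac, hbd, had⟩ := h4
  obtain ⟨r, hr, ⟨h1, h2, h3⟩, hrr⟩ := h.cell_root
    (fun x => M x c = true ∧ M x a = false ∧ M x b = false)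
    (fun u v g hu hv hg => ⟨by rw [hg c hc (by rw [hu.1, hv.1]), hu.1],
      by rw [hg a ha (by rw [hu.2.1, hv.2.1]), hu.2.1],
      by rw [hg b hb (by rw [hu.2.2, hv.2.2]), hu.2.2]⟩) c hc true (fun x hx => hx.1)
    ⟨a, ha, by rw [h.symm c a, hac]; simp⟩ ⟨d, hd, by rw [h.symm]; exact hcd,
      by rw [h.symm]; exact had, by rw [h.symm]; exact hbd⟩
  have h0 := h.iD ha hb hc hd ⟨hab, hbc, hcd, hac, hbd, had⟩ hr h1 h2 h3
    (fun x hx e1 e2 e3 => hrr x hx ⟨e1, e2, e3⟩)
  exact ⟨r, hr, h1, h2, h3, fun x hx e1 e2 e3 => by rw [hrr x hx ⟨e1, e2, e3⟩, h0]⟩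

/-- (ii): the row of a type 0 root of `D*` lies in the row of every `d` in `D*`. -/
theorem Bun.iiD (h : Bun M S) {a b c d : X} (ha : a ∈ S) (hb : b ∈ S) (hc : c ∈ S)
    (hd : d ∈ S) (h4 : IsP4 M a b c d) {r : X} (hr : r ∈ S) (hrc : M r c = true)
    (hra : M r a = false) (hrb : M r b = false)
    (hrr : ∀ x ∈ S, M x c = true → M x a = false → M x b = false → M r x = false)
    {y : X} (hy : y ∈ S) (hry : M r y = true) : M d y = true := by
  by_contra hcon
  have hdy : M d y = false := by simpa using hcon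
  have hyd : M y d = false := by rw [h.symm]; exact hdy
  have hyr : M y r = true := by rw [h.symm]; exact hry
  obtain ⟨hab, hbc, hcd, hac, hbd, had⟩ := h4
  have hba : M b a = true := by rw [h.symm]; exact hab
  have hcb : M c b = true := by rw [h.symm]; exact hbc
  have hdc : M d c = true := by rw [h.symm]; exact hcd
  have hca : M c a = false := by rw [h.symm]; exact hac
  have hdb : M d b = false := by rw [h.symm]; exact hbd
  have hda : M d a = false := by rw [h.symm]; exact had
  have har : M a r = false := by rw [h.symm]; exact hra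
  have hbr : M b r = false := by rw [h.symm]; exact hrb
  have hcr : M c r = true := by rw [h.symm]; exact hrc
  have hrd : M r d = false := hrr d hd hdc hda hdb
  have hdr : M d r = false := by rw [h.symm]; exact hrd
  -- `d` cannot miss a P4
  have key : ∀ p ∈ S, ∀ q ∈ S, ∀ s ∈ S, ∀ t ∈ S, IsP4 M p q s t → M d p = false →
      M d q = false → M d s = false → M d t = false → False := by
    intro p hp q hq s hs t ht h5 e1 e2 e3 e4
    have := h.min d hd p hp q hq s hs t ht h5 (by rw [e1, e2]) (by rw [e1, e3])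
      (by rw [e1, e4]) c hc
    rw [hdc, e1] at this
    simp at this
  -- (1) every element of N(r) - N(d) sees a, b and misses c
  have step : ∀ x ∈ S, M x r = true → M x d = false →
      M x a = true ∧ M x b = true ∧ M x c = false := by
    intro x hx hxr hxd
    have hdx : M d x = false := by rw [h.symm]; exact hxd
    have hax := h.symm a x
    have hbx := h.symm b x
    rcases Bool.eq_false_or_eq_true (M x a) with ea | ea <;>
    rcases Bool.eq_false_or_eq_true (M x b) with eb | eb <;>
    rcases Bool.eq_false_or_eq_true (M x c) with ec | ec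
    · exfalso
      have := h.min x hx a ha b hb c hc r hr ⟨hab, hbc, hcr, hac, hbr, har⟩ (by rw [ea, eb])
        (by rw [ea, ec]) (by rw [ea, hxr]) d hd
      rw [hxd, ea] at this
      simp at this
    · exact ⟨ea, eb, ec⟩
    · exact (key b hb a ha x hx r hr ⟨hba, by rw [hax]; exact ea, hxr,
        by rw [hbx]; exact eb, har, hbr⟩ hdb hda hdx hdr).elim
    · exact (key b hb a ha x hx r hr ⟨hba, by rw [hax]; exact ea, hxr,
        by rw [hbx]; exact eb, har, hbr⟩ hdb hda hdx hdr).elim
    · exact (key a ha b hb x hx r hr ⟨hab, by rw [hbx]; exact eb, hxr,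
        by rw [hax]; exact ea, hbr, har⟩ hda hdb hdx hdr).elim
    · exact (key a ha b hb x hx r hr ⟨hab, by rw [hbx]; exact eb, hxr,
        by rw [hax]; exact ea, hbr, har⟩ hda hdb hdx hdr).elim
    · exfalso
      have := hrr x hx ec ea eb
      rw [h.symm r x, hxr] at this
      simp at this
    · exfalso
      have := h.min x hx a ha b hb c hc d hd ⟨hab, hbc, hcd, hac, hbd, had⟩ (by rw [ea, eb])
        (by rw [ea, ec]) (by rw [ea, hxd]) r hr
      rw [hxr, ea] at this
      simp at this
  obtain ⟨hya, hyb, hyc⟩ := step y hy hyr hyd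
  -- the root of A*
  obtain ⟨p, hp, hpb, hpd, hpc, hpall⟩ := h.rootD hd hc hb ha
    (IsP4.rev h.symm ⟨hab, hbc, hcd, hac, hbd, had⟩)
  have hpa : M p a = false := hpall a ha hab had hac
  have hpy : M p y = false := hpall y hy hyb hyd hyc
  have hpr : M p r = false := by
    by_contra hcon2
    have hcon2' : M p r = true := by simpa using hcon2
    have := (step p hp hcon2' hpd).1
    rw [hpa] at this
    simp at this
  exact key p hp b hb y hy r hr ⟨hpb, by rw [h.symm]; exact hyb, hyr, hpy, hbr, hpr⟩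
    (by rw [h.symm]; exact hpd) hdb hdy hdr

/-- the potential. -/
def psi (M : X → X → Bool) (S : Finset X) (a b c d : X) : ℕ :=
  (S.filter (fun x => M a x = true)).card + (S.filter (fun x => M d x = true)).card +
    (S.filter (fun x => M b x = false)).card + (S.filter (fun x => M c x = false)).card

theorem Bun.goodD (h : Bun M S) {a b c d : X} (ha : a ∈ S) (hb : b ∈ S) (hc : c ∈ S)
    (hd : d ∈ S) (h4 : IsP4 M a b c d)
    (hmin : ∀ a' ∈ S, ∀ b' ∈ S, ∀ c' ∈ S, ∀ d' ∈ S, IsP4 M a' b' c' d' →
      psi M S a b c d ≤ psi M S a' b' c' d')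
    {w : X} (hw : w ∈ S) (hwa : M w a = false) (hwb : M w b = false) (hwc : M w c = true) :
    M w d = false := by
  obtain ⟨r, hr, hrc, hra, hrb, hrall⟩ := h.rootD ha hb hc hd h4
  have hsub : ∀ y ∈ S, M r y = true → M d y = true :=
    fun y hy e => h.iiD ha hb hc hd h4 hr hrc hra hrb hrall hy e
  have h4r : IsP4 M a b c r := ⟨h4.1, h4.2.1, by rw [h.symm]; exact hrc, h4.2.2.2.1,
    by rw [h.symm]; exact hrb, by rw [h.symm]; exact hra⟩
  have hle := hmin a ha b hb c hc r hr h4r
  have hle' : (S.filter (fun x => M d x = true)).card ≤ (S.filter (fun x => M r x = true)).card := by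
    unfold psi at hle
    omega
  have heq : S.filter (fun x => M r x = true) = S.filter (fun x => M d x = true) :=
    Finset.eq_of_subset_of_card_le (fun x hx => by
      rw [Finset.mem_filter] at hx ⊢; exact ⟨hx.1, hsub x hx.1 hx.2⟩) hle'
  by_contra hcon
  have hwd : M w d = true := by simpa using hcon
  have : w ∈ S.filter (fun x => M d x = true) := by
    rw [Finset.mem_filter]; exact ⟨hw, by rw [h.symm]; exact hwd⟩
  rw [← heq, Finset.mem_filter] at this
  rw [hrall w hw hwc hwa hwb] at this
  simp at this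

omit [DecidableEq X] in
theorem psi_rev (a b c d : X) : psi M S d c b a = psi M S a b c d := by
  unfold psi; omega

omit [DecidableEq X] in
theorem psi_co (a b c d : X) : psi (co M) S c a d b = psi M S a b c d := by
  unfold psi
  have h1 : ∀ z : X, (S.filter (fun x => co M z x = true)) = S.filter (fun x => M z x = false) := by
    intro z
    apply Finset.filter_congr
    intro x _
    rw [co_apply]; simp
  have h0 : ∀ z : X, (S.filter (fun x => co M z x = false)) = S.filter (fun x => M z x = true) := by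
    intro z
    apply Finset.filter_congr
    intro x _
    rw [co_apply]; simp
  rw [h1, h1, h0, h0]
  omega

/-- no bad vertex inside `S` for the psi-minimal P4. -/
theorem Bun.good (h : Bun M S) {a b c d : X} (ha : a ∈ S) (hb : b ∈ S) (hc : c ∈ S)
    (hd : d ∈ S) (h4 : IsP4 M a b c d)
    (hmin : ∀ a' ∈ S, ∀ b' ∈ S, ∀ c' ∈ S, ∀ d' ∈ S, IsP4 M a' b' c' d' →
      psi M S a b c d ≤ psi M S a' b' c' d') {w : X} (hw : w ∈ S) :
    ¬ (M w a = false ∧ M w b = false ∧ M w c = true ∧ M w d = true) ∧
    ¬ (M w a = true ∧ M w b = true ∧ M w c = false ∧ M w d = false) ∧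
    ¬ (M w a = true ∧ M w b = false ∧ M w c = true ∧ M w d = false) ∧
    ¬ (M w a = false ∧ M w b = true ∧ M w c = false ∧ M w d = true) := by
  have hminr : ∀ a' ∈ S, ∀ b' ∈ S, ∀ c' ∈ S, ∀ d' ∈ S, IsP4 M a' b' c' d' →
      psi M S d c b a ≤ psi M S a' b' c' d' := by
    intro a' ha' b' hb' c' hc' d' hd' h5
    rw [psi_rev]; exact hmin a' ha' b' hb' c' hc' d' hd' h5
  have hminc : ∀ a' ∈ S, ∀ b' ∈ S, ∀ c' ∈ S, ∀ d' ∈ S, IsP4 (co M) a' b' c' d' →
      psi (co M) S c a d b ≤ psi (co M) S a' b' c' d' := by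
    intro a' ha' b' hb' c' hc' d' hd' h5
    rw [psi_co]
    have h6 := IsP4.ofCo h.symm h5
    have h7 := hmin b' hb' d' hd' a' ha' c' hc' h6
    have h8 := psi_co (M := M) (S := S) b' d' a' c'
    rw [h8]; exact h7
  have hmincr : ∀ a' ∈ S, ∀ b' ∈ S, ∀ c' ∈ S, ∀ d' ∈ S, IsP4 (co M) a' b' c' d' →
      psi (co M) S b d a c ≤ psi (co M) S a' b' c' d' := by
    intro a' ha' b' hb' c' hc' d' hd' h5
    rw [psi_rev]; exact hminc a' ha' b' hb' c' hc' d' hd' h5
  refine ⟨?_, ?_, ?_, ?_⟩
  · rintro ⟨e1, e2, e3, e4⟩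
    have := h.goodD ha hb hc hd h4 hmin hw e1 e2 e3
    rw [e4] at this
    simp at this
  · rintro ⟨e1, e2, e3, e4⟩
    have := h.goodD hd hc hb ha (h4.rev h.symm) hminr hw e4 e3 e2
    rw [e1] at this
    simp at this
  · rintro ⟨e1, e2, e3, e4⟩
    -- complement: (c,a,d,b): w misses c, a and sees d
    have := h.toCo.goodD hc ha hd hb (h4.toCo h.symm) hminc hw (by rw [co_apply, e3]; rfl)
      (by rw [co_apply, e1]; rfl) (by rw [co_apply, e4]; rfl)
    rw [co_apply, e2] at this
    simp at this
  · rintro ⟨e1, e2, e3, e4⟩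
    have := h.toCo.goodD hb hd ha hc ((h4.toCo h.symm).rev h.toCo.symm) hmincr hw
      (by rw [co_apply, e2]; rfl) (by rw [co_apply, e4]; rfl) (by rw [co_apply, e1]; rfl)
    rw [co_apply, e3] at this
    simp at this

end

/-- P3' for a finite set `S` with midpoints. -/
theorem exists_good (M : X → X → Bool) (hM : ∀ x y, M x y = M y x) : ∀ n : ℕ,
    ∀ S : Finset X, S.card = n → PairsOn M S →
    (∃ a ∈ S, ∃ b ∈ S, ∃ c ∈ S, ∃ d ∈ S, IsP4 M a b c d) →
    ∃ a ∈ S, ∃ b ∈ S, ∃ c ∈ S, ∃ d ∈ S, IsP4 M a b c d ∧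
      ∀ w ∈ S, (∀ v ∈ S, M a v = M b v → M b v = M c v → M c v = M d v → M w v = M a v) →
        ¬ (M w a = false ∧ M w b = false ∧ M w c = true ∧ M w d = true) ∧
        ¬ (M w a = true ∧ M w b = true ∧ M w c = false ∧ M w d = false) ∧
        ¬ (M w a = true ∧ M w b = false ∧ M w c = true ∧ M w d = false) ∧
        ¬ (M w a = false ∧ M w b = true ∧ M w c = false ∧ M w d = true) := by
  intro n
  induction n using Nat.strong_induction_on with
  | _ n ih =>
    intro S hn hP hex
    by_cases hmin : MinOn M S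
    · have hB : Bun M S := ⟨hM, hP, hmin⟩
      classical
      let T : Finset (X × X × X × X) :=
        (S ×ˢ S ×ˢ S ×ˢ S).filter (fun q => IsP4 M q.1 q.2.1 q.2.2.1 q.2.2.2)
      have hT : T.Nonempty := by
        obtain ⟨a, ha, b, hb, c, hc, d, hd, h4⟩ := hex
        exact ⟨(a, b, c, d), by
          simp only [T, Finset.mem_filter, Finset.mem_product]; exact ⟨⟨ha, hb, hc, hd⟩, h4⟩⟩
      obtain ⟨⟨a, b, c, d⟩, hq, hqmin⟩ := Finset.exists_min_image T
        (fun q => psi M S q.1 q.2.1 q.2.2.1 q.2.2.2) hT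
      simp only [T, Finset.mem_filter, Finset.mem_product] at hq
      obtain ⟨⟨ha, hb, hc, hd⟩, h4⟩ := hq
      refine ⟨a, ha, b, hb, c, hc, d, hd, h4, fun w hw _ => ?_⟩
      refine hB.good ha hb hc hd h4 ?_ hw
      intro a' ha' b' hb' c' hc' d' hd' h5
      exact hqmin (a', b', c', d') (by
        simp only [T, Finset.mem_filter, Finset.mem_product]; exact ⟨⟨ha', hb', hc', hd'⟩, h5⟩)
    · unfold MinOn at hmin
      push Not at hmin
      obtain ⟨y, hy, a, ha, b, hb, c, hc, d, hd, h4, e1, e2, e3, x, hx, hxe⟩ := hmin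
      have hP' : PairsOn M (S.filter (fun z => M z y = M y a)) :=
        hP.filter _ (fun u v g hu hv hg => by rw [hg y hy (by rw [hu, hv]), hu])
      have hlt : (S.filter (fun z => M z y = M y a)).card < n := by
        rw [← hn]
        apply Finset.card_lt_card
        rw [Finset.ssubset_iff_of_subset (Finset.filter_subset _ _)]
        exact ⟨x, hx, by rw [Finset.mem_filter, hM x y]; exact fun hh => hxe hh.2⟩
      obtain ⟨a', ha', b', hb', c', hc', d', hd', h4', hgood⟩ := ih _ hlt _ rfl hP'
        ⟨a, by rw [Finset.mem_filter]; exact ⟨ha, hM a y⟩,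
         b, by rw [Finset.mem_filter]; exact ⟨hb, by rw [hM b y, e1]⟩,
         c, by rw [Finset.mem_filter]; exact ⟨hc, by rw [hM c y, e2]⟩,
         d, by rw [Finset.mem_filter]; exact ⟨hd, by rw [hM d y, e3]⟩, h4⟩
      rw [Finset.mem_filter] at ha' hb' hc' hd'
      refine ⟨a', ha'.1, b', hb'.1, c', hc'.1, d', hd'.1, h4', fun w hw hag => ?_⟩
      refine hgood w ?_ (fun v hv f1 f2 f3 => hag v (Finset.mem_filter.1 hv).1 f1 f2 f3)
      rw [Finset.mem_filter]
      exact ⟨hw, by rw [hag y hy (by rw [ha'.2, hb'.2]) (by rw [hb'.2, hc'.2])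
        (by rw [hc'.2, hd'.2]), ha'.2]⟩

end Pool.Agent.H75.P3
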