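import Pool.Agent.H75.P3.Core

/-!
P3' in the common form: `M : V → V → ZMod 2` symmetric.
-/

namespace Pool.Agent.H75.P3

variable {V : Type*} [Fintype V] [DecidableEq V]

/-- every closed pair has a midpoint. -/
def PairsZ (M : V → V → ZMod 2) : Prop :=
  ∀ u v, M u u = M v v → M u v ≠ M u u →
    ∃ g, M g g ≠ M u u ∧ M g u = M g g ∧ M g v = M g g ∧ ∀ x, M u x = M v x → M g x = M u x

/-- induced path on four vertices. -/
def IsP4Z (M : V → V → ZMod 2) (a b c d : V) : Prop :=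
  M a b = 1 ∧ M b c = 1 ∧ M c d = 1 ∧ M a c = 0 ∧ M a d = 0 ∧ M b d = 0

/-- the good P4's: no `w` which agrees with `a,b,c,d` wherever these four agree sees exactly
`{c,d}`, `{a,b}`, `{a,c}` or `{b,d}`. -/
def GoodZ (M : V → V → ZMod 2) (a b c d : V) : Prop :=
  ∀ w, (∀ y, M a y = M b y → M b y = M c y → M c y = M d y → M w y = M a y) →
    ¬ (M w a = 0 ∧ M w b = 0 ∧ M w c = 1 ∧ M w d = 1) ∧
    ¬ (M w a = 1 ∧ M w b = 1 ∧ M w c = 0 ∧ M w d = 0) ∧
    ¬ (M w a = 1 ∧ M w b = 0 ∧ M w c = 1 ∧ M w d = 0) ∧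
    ¬ (M w a = 0 ∧ M w b = 1 ∧ M w c = 0 ∧ M w d = 1)

theorem zmod_cases (x : ZMod 2) : x = 0 ∨ x = 1 := by
  revert x; decide

theorem dec_eq_iff (x y : ZMod 2) : (decide (x = 1) = decide (y = 1)) ↔ x = y := by
  revert x y; decide

theorem dec_true (x : ZMod 2) : (decide (x = 1) = true) ↔ x = 1 := by
  revert x; decide

theorem dec_false (x : ZMod 2) : (decide (x = 1) = false) ↔ x = 0 := by
  revert x; decide

/-- P3' over `ZMod 2`. -/
theorem exists_goodZ (M : V → V → ZMod 2) (hM : ∀ x y, M x y = M y x) (hP : PairsZ M)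
    (hex : ∃ a b c d, IsP4Z M a b c d) :
    ∃ a b c d, IsP4Z M a b c d ∧ M a a = 0 ∧ M b b = 1 ∧ M c c = 1 ∧ M d d = 0 ∧
      GoodZ M a b c d := by
  have hP' : PairsOn (fun x y => decide (M x y = 1)) (Finset.univ : Finset V) := by
    intro u _ v _ h1 h2
    have h1' : M u u = M v v := (dec_eq_iff _ _).1 h1
    have h2' : M u v ≠ M u u := fun e => h2 ((dec_eq_iff _ _).2 e)
    obtain ⟨g, a1, a2, a3, a4⟩ := hP u v h1' h2'
    refine ⟨g, Finset.mem_univ _, fun e => a1 ((dec_eq_iff _ _).1 e), fun e => a1 ?_,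
      fun e => a1 ?_, fun x _ hx => (dec_eq_iff _ _).2 (a4 x ((dec_eq_iff _ _).1 hx))⟩
    · rw [← a2]; exact (dec_eq_iff _ _).1 e
    · rw [← a3]; exact (dec_eq_iff _ _).1 e
  obtain ⟨a, b, c, d, h1, h2, h3, h4, h5, h6⟩ := hex
  obtain ⟨a, -, b, -, c, -, d, -, ⟨g1, g2, g3, g4, g5, g6⟩, hg⟩ :=
    exists_good (fun x y => decide (M x y = 1)) (fun x y => by
      show decide (M x y = 1) = decide (M y x = 1)
      rw [hM x y]) _ Finset.univ rfl hP'
      ⟨a, Finset.mem_univ _, b, Finset.mem_univ _, c, Finset.mem_univ _, d, Finset.mem_univ _,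
        (dec_true _).2 h1, (dec_true _).2 h2, (dec_true _).2 h3, (dec_false _).2 h4,
        (dec_false _).2 h6, (dec_false _).2 h5⟩
  have e1 : M a b = 1 := (dec_true _).1 g1
  have e2 : M b c = 1 := (dec_true _).1 g2
  have e3 : M c d = 1 := (dec_true _).1 g3
  have e4 : M a c = 0 := (dec_false _).1 g4
  have e5 : M b d = 0 := (dec_false _).1 g5
  have e6 : M a d = 0 := (dec_false _).1 g6
  have hgood : GoodZ M a b c d := by
    intro w hw
    obtain ⟨k1, k2, k3, k4⟩ := hg w (Finset.mem_univ _) (fun v _ f1 f2 f3 =>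
      (dec_eq_iff _ _).2 (hw v ((dec_eq_iff _ _).1 f1) ((dec_eq_iff _ _).1 f2)
        ((dec_eq_iff _ _).1 f3)))
    refine ⟨fun ⟨p1, p2, p3, p4⟩ => k1 ⟨(dec_false _).2 p1, (dec_false _).2 p2,
        (dec_true _).2 p3, (dec_true _).2 p4⟩,
      fun ⟨p1, p2, p3, p4⟩ => k2 ⟨(dec_true _).2 p1, (dec_true _).2 p2,
        (dec_false _).2 p3, (dec_false _).2 p4⟩,
      fun ⟨p1, p2, p3, p4⟩ => k3 ⟨(dec_true _).2 p1, (dec_false _).2 p2,
        (dec_true _).2 p3, (dec_false _).2 p4⟩,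
      fun ⟨p1, p2, p3, p4⟩ => k4 ⟨(dec_false _).2 p1, (dec_true _).2 p2,
        (dec_false _).2 p3, (dec_true _).2 p4⟩⟩
  refine ⟨a, b, c, d, ⟨e1, e2, e3, e4, e6, e5⟩, ?_, ?_, ?_, ?_, hgood⟩
  · rcases zmod_cases (M a a) with h | h
    · exact h
    · exact absurd ⟨h, e1, e4, e6⟩ (hgood a (fun y _ _ _ => rfl)).2.1
  · rcases zmod_cases (M b b) with h | h
    · exact absurd ⟨by rw [hM]; exact e1, h, e2, e5⟩
        (hgood b (fun y f1 _ _ => f1.symm)).2.2.1
    · exact h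
  · rcases zmod_cases (M c c) with h | h
    · exact absurd ⟨by rw [hM]; exact e4, by rw [hM]; exact e2, h, e3⟩
        (hgood c (fun y f1 f2 _ => (f1.trans f2).symm)).2.2.2
    · exact h
  · rcases zmod_cases (M d d) with h | h
    · exact h
    · exact absurd ⟨by rw [hM]; exact e6, by rw [hM]; exact e5, by rw [hM]; exact e3, h⟩
        (hgood d (fun y f1 f2 f3 => ((f1.trans f2).trans f3).symm)).1

end Pool.Agent.H75.P3
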